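import Pool.Agent.MP_66a317_pr.All.Main

namespace Pool.Agent.Results.MP_66a317_pr.AllOrder

open Pool.Agent.MP_66a317_pr

theorem result : ∃ c C : ℝ, 0 < c ∧ ∀ (r w : ℝ) (A : ℂ), 0 < r → r < ‖A‖ → 0 < w → w < 1 →
    (value r w A).toReal / min 1 (r / (w ^ 2 * ‖A‖) * √((1 - w) / (1 - r / ‖A‖)) *
      Real.log (1 + √(1 - w) / (1 - r / ‖A‖))) ∈ Set.Icc c C :=
  All.all_ratio

end Pool.Agent.Results.MP_66a317_pr.AllOrder
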