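import Pool.Agent.MP_66a317_pr.Drop.Main

namespace Pool.Agent.Results.MP_66a317_pr.FallBack

open Pool.Agent.MP_66a317_pr

theorem result (η : ℝ) (hη : 0 < η) : ∃ θ : ℝ, 0 < θ ∧ ∀ (r w : ℝ) (A : ℂ), 0 < r → r < ‖A‖ →
    w < 1 → 1 - r / ‖A‖ ≤ θ → √(1 - w) ≤ θ * (1 - r / ‖A‖) →
      |(value r w A).toReal / ((1 - w) * √(3 / (2 * (1 - r / ‖A‖))) ^ 3) - 1| ≤ η :=
  Drop.drop_all η hη

end Pool.Agent.Results.MP_66a317_pr.FallBack
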