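import Pool.Agent.MP_66a317_pr.All.Rel

namespace Pool.Agent.Results.MP_66a317_pr.FastRelative

open Pool.Agent.MP_66a317_pr

theorem result (η : ℝ) (hη : 0 < η) : ∃ K : ℝ, ∀ (r w : ℝ) (A : ℂ), 0 < r → r < ‖A‖ → 0 < w →
    w < 1 → K ≤ √(1 - w) / (1 - r / ‖A‖) →
      |(value r w A).toReal / (1 - ∏' k : ℕ, (1 - min 1 (lev (2 * Real.log
        (√(1 - w) / (1 - r / ‖A‖))) k * √((1 - w) / (1 - r / ‖A‖))) / 2)) - 1| ≤ η :=
  All.fast_rel η hη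

end Pool.Agent.Results.MP_66a317_pr.FastRelative
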