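import Pool.Agent.Mg.F66a317.G96c572

namespace Pool.Agent.Results.MP_66a317_pr.SlowAsymptotic

open Pool.Agent.MP_66a317_pr

theorem result (ε : ℝ) (hε : 0 < ε) : ∃ δ : ℝ, 0 < δ ∧ ∀ (r w : ℝ) (A : ℂ),
    0 < r → 0 < w → w < δ → r ≤ δ * (w ^ 2 * ‖A‖) →
      |(value r w A).toReal - 2 * r / (Real.pi * w ^ 2 * ‖A‖)| ≤
        ε * (2 * r / (Real.pi * w ^ 2 * ‖A‖)) :=
  slow_asymp ε hε

end Pool.Agent.Results.MP_66a317_pr.SlowAsymptotic
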